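import Pool.Agent.R877.RN.Stm

/-! Project RN, piece MCOM (task 5765). -/

namespace R877.RN
open Matrix Filter Topology

namespace MCOMaux

theorem rot {n : ℕ} (f : Fin n → Fin n → Fin n → ℝ) :
    ∑ m, ∑ p, ∑ k, f m p k = ∑ p, ∑ k, ∑ m, f m p k := by
  rw [Finset.sum_comm]
  exact Finset.sum_congr rfl fun p _ => Finset.sum_comm

theorem partP {n : ℕ} (ν : Br n) (S : Mat n) (h1 : IsDer S ν) (h2 : IsDer Sᵀ ν) (i j : Fin n) :
    ∑ m, (∑ p, ∑ k, ν i p k * ν m p k) * S m j
      = ∑ m, S i m * (∑ p, ∑ k, ν m p k * ν j p k) := by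
  have hL : ∑ m, (∑ p, ∑ k, ν i p k * ν m p k) * S m j
      = ∑ p, ∑ k, ν i p k * ∑ m, S m j * ν m p k := by
    have e1 : ∀ m, (∑ p, ∑ k, ν i p k * ν m p k) * S m j
        = ∑ p, ∑ k, ν i p k * (S m j * ν m p k) := by
      intro m
      rw [Finset.sum_mul]
      refine Finset.sum_congr rfl fun p _ => ?_
      rw [Finset.sum_mul]
      refine Finset.sum_congr rfl fun k _ => ?_
      ring
    rw [Finset.sum_congr rfl fun m _ => e1 m, rot]
    refine Finset.sum_congr rfl fun p _ => Finset.sum_congr rfl fun k _ => ?_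
    rw [Finset.mul_sum]
  have hR : ∑ m, S i m * (∑ p, ∑ k, ν m p k * ν j p k)
      = ∑ p, ∑ k, (∑ m, S i m * ν m p k) * ν j p k := by
    have e1 : ∀ m, S i m * (∑ p, ∑ k, ν m p k * ν j p k)
        = ∑ p, ∑ k, (S i m * ν m p k) * ν j p k := by
      intro m
      rw [Finset.mul_sum]
      refine Finset.sum_congr rfl fun p _ => ?_
      rw [Finset.mul_sum]
      refine Finset.sum_congr rfl fun k _ => ?_
      ring
    rw [Finset.sum_congr rfl fun m _ => e1 m, rot]
    refine Finset.sum_congr rfl fun p _ => Finset.sum_congr rfl fun k _ => ?_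
    rw [Finset.sum_mul]
  rw [hL, hR]
  have d1 : ∀ p k, ∑ m, S m j * ν m p k = ∑ r, S k r * ν j p r - ∑ q, S q p * ν j q k := by
    intro p k
    have := h1 j p k
    linarith
  have d2 : ∀ p k, ∑ m, S i m * ν m p k = ∑ r, S r k * ν i p r - ∑ q, S p q * ν i q k := by
    intro p k
    have := h2 i p k
    simp only [Matrix.transpose_apply] at this
    linarith
  simp only [d1, d2, mul_sub, sub_mul, Finset.mul_sum, Finset.sum_mul, Finset.sum_sub_distrib]
  congr 1
  · refine Finset.sum_congr rfl fun p _ => ?_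
    rw [Finset.sum_comm]
    refine Finset.sum_congr rfl fun k _ => Finset.sum_congr rfl fun r _ => ?_
    ring
  · calc ∑ p, ∑ k, ∑ q, ν i p k * (S q p * ν j q k)
        = ∑ q, ∑ p, ∑ k, ν i p k * (S q p * ν j q k) := (rot _).symm
      _ = ∑ q, ∑ k, ∑ p, ν i p k * (S q p * ν j q k) :=
          Finset.sum_congr rfl fun q _ => Finset.sum_comm
      _ = ∑ p, ∑ k, ∑ q, S p q * ν i q k * ν j p k :=
          Finset.sum_congr rfl fun q _ => Finset.sum_congr rfl fun k _ =>
            Finset.sum_congr rfl fun p _ => by ring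

theorem partQ {n : ℕ} (ν : Br n) (S : Mat n) (h1 : IsDer S ν) (h2 : IsDer Sᵀ ν) (i j : Fin n) :
    ∑ m, (∑ p, ∑ q, ν p q i * ν p q m) * S m j
      = ∑ m, S i m * (∑ p, ∑ q, ν p q m * ν p q j) := by
  have hL : ∑ m, (∑ p, ∑ q, ν p q i * ν p q m) * S m j
      = ∑ p, ∑ q, ν p q i * ∑ m, S m j * ν p q m := by
    have e1 : ∀ m, (∑ p, ∑ q, ν p q i * ν p q m) * S m j
        = ∑ p, ∑ q, ν p q i * (S m j * ν p q m) := by
      intro m
      rw [Finset.sum_mul]
      refine Finset.sum_congr rfl fun p _ => ?_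
      rw [Finset.sum_mul]
      refine Finset.sum_congr rfl fun k _ => ?_
      ring
    rw [Finset.sum_congr rfl fun m _ => e1 m, rot]
    refine Finset.sum_congr rfl fun p _ => Finset.sum_congr rfl fun k _ => ?_
    rw [Finset.mul_sum]
  have hR : ∑ m, S i m * (∑ p, ∑ q, ν p q m * ν p q j)
      = ∑ p, ∑ q, (∑ m, S i m * ν p q m) * ν p q j := by
    have e1 : ∀ m, S i m * (∑ p, ∑ q, ν p q m * ν p q j)
        = ∑ p, ∑ q, (S i m * ν p q m) * ν p q j := by
      intro m
      rw [Finset.mul_sum]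
      refine Finset.sum_congr rfl fun p _ => ?_
      rw [Finset.mul_sum]
      refine Finset.sum_congr rfl fun k _ => ?_
      ring
    rw [Finset.sum_congr rfl fun m _ => e1 m, rot]
    refine Finset.sum_congr rfl fun p _ => Finset.sum_congr rfl fun k _ => ?_
    rw [Finset.sum_mul]
  rw [hL, hR]
  have d1 : ∀ p q, ∑ m, S m j * ν p q m = ∑ a, S p a * ν a q j + ∑ b, S q b * ν p b j := by
    intro p q
    have := h2 p q j
    simp only [Matrix.transpose_apply] at this
    exact this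
  have d2 : ∀ p q, ∑ m, S i m * ν p q m = ∑ a, S a p * ν a q i + ∑ b, S b q * ν p b i := by
    intro p q
    exact h1 p q i
  simp only [d1, d2, mul_add, add_mul, Finset.mul_sum, Finset.sum_mul, Finset.sum_add_distrib]
  congr 1
  · calc ∑ p, ∑ q, ∑ a, ν p q i * (S p a * ν a q j)
        = ∑ a, ∑ p, ∑ q, ν p q i * (S p a * ν a q j) := (rot _).symm
      _ = ∑ a, ∑ q, ∑ p, ν p q i * (S p a * ν a q j) :=
          Finset.sum_congr rfl fun a _ => Finset.sum_comm
      _ = ∑ p, ∑ q, ∑ a, S a p * ν a q i * ν p q j :=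
          Finset.sum_congr rfl fun a _ => Finset.sum_congr rfl fun q _ =>
            Finset.sum_congr rfl fun p _ => by ring
  · refine Finset.sum_congr rfl fun p _ => ?_
    rw [Finset.sum_comm]
    refine Finset.sum_congr rfl fun b _ => Finset.sum_congr rfl fun q _ => ?_
    ring

end MCOMaux

/-- derivations `S`, `Sᵀ` commute with `M` -/
theorem p_MCOM : P_MCOM := by
  intro n ν S _ h1 h2
  ext i j
  rw [Matrix.mul_apply, Matrix.mul_apply]
  have hP := MCOMaux.partP ν S h1 h2 i j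
  have hQ := MCOMaux.partQ ν S h1 h2 i j
  have e1 : ∀ m, Mm ν i m * S m j = -(1/2) * ((∑ p, ∑ k, ν i p k * ν m p k) * S m j)
      + (1/4) * ((∑ p, ∑ q, ν p q i * ν p q m) * S m j) := by
    intro m; unfold Mm; ring
  have e2 : ∀ m, S i m * Mm ν m j = -(1/2) * (S i m * (∑ p, ∑ k, ν m p k * ν j p k))
      + (1/4) * (S i m * (∑ p, ∑ q, ν p q m * ν p q j)) := by
    intro m; unfold Mm; ring
  rw [Finset.sum_congr rfl fun m _ => e1 m, Finset.sum_congr rfl fun m _ => e2 m,
    Finset.sum_add_distrib, Finset.sum_add_distrib, ← Finset.mul_sum, ← Finset.mul_sum,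
    ← Finset.mul_sum, ← Finset.mul_sum, hP, hQ]

end R877.RN
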